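import Mathlib
import Pool.Agent.Y780.RR.Flags

/-!
Polynomial separation for the Rank-Ramsey function with the exponent `3/4`:
`ν_d(n) ≤ C n^(3/4)` with one constant `C` for all `d ≥ 2` and all `n ≥ 1`.
-/

namespace Pool.Agent.Results.MP_95a368_co.ThreeQuarters

open Classical in
/-- `nu d n` is the least rank over `ℝ` of `A_G + I` over all graphs `G` on `n` vertices
without a clique on `d + 1` vertices. -/
noncomputable def nu (d n : ℕ) : ℕ :=
  sInf {r : ℕ | ∃ G : SimpleGraph (Fin n), G.CliqueFree (d + 1) ∧ (G.adjMatrix ℝ + 1).rank = r}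

open Classical in
/-- There is a constant `C` with `ν_d(n) ≤ C n^(3/4)` for all `d ≥ 2` and all `n ≥ 1`. -/
theorem result : ∃ C : ℝ, ∀ d : ℕ, 2 ≤ d → ∀ n : ℕ, 1 ≤ n →
    (nu d n : ℝ) ≤ C * (n : ℝ) ^ (3 / 4 : ℝ) := by
  refine ⟨320, fun d hd n hn => ?_⟩
  obtain ⟨G, hG, hr⟩ := Pool.Agent.Y780.RR.exists_graph n hn
  have h1 : nu d n ≤ (G.adjMatrix ℝ + 1).rank :=
    Nat.sInf_le ⟨G, hG.mono (by omega), rfl⟩
  have h2 : (nu d n : ℝ) ≤ ((G.adjMatrix ℝ + 1).rank : ℝ) := by exact_mod_cast h1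
  exact h2.trans hr

end Pool.Agent.Results.MP_95a368_co.ThreeQuarters
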